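import Pool.Agent.Helper13_BSig.OmegaBasics

/-!
# BSIG, module Claim1
-/

namespace Pool.Agent.BSig.H13

open Filter Pool.Agent.BSig

/-! ### parity -/

theorem two_mk : (2 : MM) = mk (fun _ => 2) (bdd_const 2) := by
  have h := natCast_mk 2
  rw [Nat.cast_ofNat] at h
  exact h

theorem two_mul_inj {a b : MM} (h : 2 * a = 2 * b) : a = b := by
  obtain ⟨f, hf, rfl⟩ := exists_mk a
  obtain ⟨g, hg, rfl⟩ := exists_mk b
  rw [two_mk, mk_mul, mk_mul, mk_eq] at h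
  rw [mk_eq]
  filter_upwards [h] with n hn
  omega

theorem two_mul_add_inj {a b : MM} (h : 2 * a + 1 = 2 * b + 1) : a = b :=
  two_mul_inj (PAExp.add_cancel' _ _ _ h)

theorem odd_ne_even (a b : MM) : 2 * a + 1 ≠ 2 * b := by
  intro h
  obtain ⟨f, hf, rfl⟩ := exists_mk a
  obtain ⟨g, hg, rfl⟩ := exists_mk b
  rw [two_mk, mk_mul, mk_mul, mk_one, mk_add, mk_eq] at h
  obtain ⟨n, hn⟩ := h.exists
  omega

theorem exists_half (u : MM) : ∃ z, z ≤ u ∧ (u = 2 * z + 1 ∨ u = 2 * z) := by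
  obtain ⟨f, hf, rfl⟩ := exists_mk u
  have hb : Bdd (fun n => f n / 2) :=
    bdd_of_le hf (Eventually.of_forall fun n => Nat.div_le_self _ _)
  refine ⟨mk (fun n => f n / 2) hb, ?_, ?_⟩
  · rw [mk_le]
    exact Eventually.of_forall fun n => Nat.div_le_self _ _
  · rw [two_mk, mk_mul, mk_one, mk_add, mk_eq, mk_eq, ← eventually_or']
    exact Eventually.of_forall fun n => by omega

theorem fact_unique {C : Set MM} {K i : MM} (hi : i = 0 ∨ i = 1) (h : Fact C (2 * K + i)) :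
    decode K ⊆ sgn C i := by
  obtain ⟨K', i', h1, h2, h3⟩ := h
  rcases hi with rfl | rfl <;> rcases h2 with rfl | rfl
  · rw [add_zero, add_zero] at h1
    rw [two_mul_inj h1]
    exact h3
  · rw [add_zero] at h1
    exact absurd h1.symm (odd_ne_even _ _)
  · rw [add_zero] at h1
    exact absurd h1 (odd_ne_even _ _)
  · rw [two_mul_add_inj h1]
    exact h3

theorem der_anti {φ : (Fin 5 → MM) → Prop} {α k y y' F t : MM} (h : y' ≤ y)
    (hd : Der φ α k y F t) : Der φ α k y' F t := by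
  obtain ⟨K, hK, i, hi, P, hP, Q, hQ, w, hw, h1, h2, h3, h4, h5⟩ := hd
  refine ⟨K, hK, i, hi, P, hP, Q, hQ, w, hw, h1, h2, h3, h4, ?_⟩
  intro x hx hm
  obtain ⟨z, hz, h6 | ⟨h6, h7⟩⟩ := h5 x hx hm
  · exact ⟨z, hz, Or.inl h6⟩
  · exact ⟨z, hz, Or.inr ⟨h6, h.trans h7⟩⟩

theorem pr_mono {a b c d : MM} (h1 : a ≤ c) (h2 : b ≤ d) : pr a b ≤ pr c d := by
  obtain ⟨a, ha, rfl⟩ := exists_mk a; obtain ⟨b, hb, rfl⟩ := exists_mk b
  obtain ⟨c, hc, rfl⟩ := exists_mk c; obtain ⟨d, hd, rfl⟩ := exists_mk d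
  rw [mk_le] at h1 h2
  rw [pr_mk, pr_mk, mk_le]
  filter_upwards [h1, h2] with n h1 h2
  have h3 : a n + b n ≤ c n + d n := by omega
  have := Nat.mul_le_mul h3 h3
  omega

theorem le_two_mul (z : MM) : z ≤ 2 * z := by
  rw [two_mul]
  exact le_add_left' z z

theorem lt_succ' (z : MM) : z < z + 1 := (PAExp.discrete _ _).2 le_rfl

theorem le_two_mul_add (z : MM) : z ≤ 2 * z + 1 := (le_two_mul z).trans (lt_succ' _).le

/-- the literals of `F` are given by `p` (positive) and `q` (negative) -/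
def Spl (F p q : MM) : Prop := ∀ u, u ≤ F → Mem u F → ∃ z, z ≤ u ∧
  ((u = 2 * z + 1 ∧ Mem z p) ∨ (u = 2 * z ∧ Mem z q))

theorem IsDelta0.spl {n : ℕ} {F p q : (Fin n → MM) → MM} (hF : IsTerm F) (hp : IsTerm p)
    (hq : IsTerm q) : IsDelta0 (fun v => Spl (F v) (p v) (q v)) := by
  refine IsDelta0.all hF ?_
  refine (IsDelta0.mem (IsTerm.var 0) hF.tail).imp ?_
  refine IsDelta0.ex (IsTerm.var 0) ?_
  refine IsDelta0.or ?_ ?_
  · exact (IsDelta0.eq (IsTerm.var 1) ((IsTerm.var 0).two_mul.add_nat 1)).and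
      (IsDelta0.mem (IsTerm.var 0) hp.tail.tail)
  · exact (IsDelta0.eq (IsTerm.var 1) (IsTerm.var 0).two_mul).and
      (IsDelta0.mem (IsTerm.var 0) hq.tail.tail)

theorem spl_tr {B : Set MM} {F p q : MM} (h : Spl F p q) (hp : decode p ⊆ B)
    (hq : decode q ⊆ Bᶜ) : Tr B F := by
  intro z
  constructor
  · intro hz
    obtain ⟨z', _, ⟨h1, h2⟩ | ⟨h1, h2⟩⟩ := h _ (mem_lt hz).le hz
    · rw [two_mul_add_inj h1]
      exact hp h2
    · exact absurd h1 (odd_ne_even _ _)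
  · intro hz
    obtain ⟨z', _, ⟨h1, h2⟩ | ⟨h1, h2⟩⟩ := h _ (mem_lt hz).le hz
    · exact absurd h1.symm (odd_ne_even _ _)
    · rw [two_mul_inj h1]
      exact hq h2

theorem exists_spl {B : Set MM} {F : MM} (h : Tr B F) : ∃ p q, Spl F p q ∧ decode p ⊆ B ∧
    decode q ⊆ Bᶜ := by
  have h1 : Int1 (fun z : MM => Mem (2 * z + 1) F) := by
    apply Int1.of_delta0
    exact IsDelta0.mem ((IsTerm.var 0).two_mul.add_nat 1) (IsTerm.param F)
  have h2 : Int1 (fun z : MM => Mem (2 * z) F) := by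
    apply Int1.of_delta0
    exact IsDelta0.mem (IsTerm.var 0).two_mul (IsTerm.param F)
  obtain ⟨p, _, hp⟩ := h1.code F
  obtain ⟨q, _, hq⟩ := h2.code F
  refine ⟨p, q, ?_, ?_, ?_⟩
  · intro u _ hu
    obtain ⟨z, hz, hz2⟩ := exists_half u
    refine ⟨z, hz, ?_⟩
    rcases hz2 with rfl | rfl
    · exact Or.inl ⟨rfl, (hp z).2 ⟨(le_two_mul_add z).trans_lt (mem_lt hu), hu⟩⟩
    · exact Or.inr ⟨rfl, (hq z).2 ⟨(le_two_mul z).trans_lt (mem_lt hu), hu⟩⟩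
  · intro z hz
    exact (h z).1 ((hp z).1 hz).2
  · intro z hz
    exact (h z).2 ((hq z).1 hz).2

theorem tr_lit {B : Set MM} {F : MM} (h : Tr B F) (z : MM) : (Mem (2 * z + 1) F → z ∈ B) ∧
    (Mem (2 * z) F → z ∉ B) := h z

/-- case I -/
theorem caseI (hCode : CodeStmt) {B C : Set MM} {φ : (Fin 5 → MM) → Prop} (hφ : IsDelta0 φ)
    (hder : ∀ t, Fact C t ↔ ∃ (l : ℕ) (y F : MM), Infl y ∧ Tr B F ∧ F ≤ aa l ∧
      Der φ (aa l) l y F t)
    (v : ℕ → ℕ) (hv : ∀ l : ℕ, ∀ F, F ≤ aa l → Tr B F → ∀ t, Der φ (aa l) l (v l) F t →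
      Fact C t) : Red C B := by
  obtain ⟨E, hE⟩ := hCode.2.1 v
  have hS : Sig1 (fun x : Fin 4 → MM => ∃ T, ∃ l, ∃ α, ∃ y, ∃ F, TowOK T ∧ Mem (pr l α) T ∧
      Mem (pr l y) E ∧ F ≤ α ∧ Spl F (x 2) (x 3) ∧ Der φ α l y F (2 * x 0 + x 1)) := by
    refine Sig1.ex ?_
    refine Sig1.ex ?_
    refine Sig1.ex ?_
    refine Sig1.ex ?_
    refine Sig1.ex ?_
    refine Sig1.of_delta0 ?_
    -- 0 = F, 1 = y, 2 = α, 3 = l, 4 = T, 5 = K, 6 = i, 7 = p, 8 = q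
    refine (IsDelta0.towOK (IsTerm.var 4)).and ?_
    refine (IsDelta0.mem (IsTerm.pr (IsTerm.var 3) (IsTerm.var 2)) (IsTerm.var 4)).and ?_
    refine (IsDelta0.mem (IsTerm.pr (IsTerm.var 3) (IsTerm.var 1)) (IsTerm.param E)).and ?_
    refine (IsDelta0.le (IsTerm.var 0) (IsTerm.var 2)).and ?_
    refine (IsDelta0.spl (IsTerm.var 0) (IsTerm.var 7) (IsTerm.var 8)).and ?_
    exact hφ.der (IsTerm.var 2) (IsTerm.var 3) (IsTerm.var 1) (IsTerm.var 0)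
      ((IsTerm.var 5).two_mul.add (IsTerm.var 6))
  refine ⟨_, hS.isSigma, ?_⟩
  intro K i hi
  constructor
  · intro hK
    obtain ⟨l, y, F, hy, hTr, hF, hD⟩ := (hder (2 * K + i)).1 ⟨K, i, rfl, hi, hK⟩
    obtain ⟨p, q, hs, hp, hq⟩ := exists_spl hTr
    obtain ⟨T, hT, hT2⟩ := exists_goodT l
    refine ⟨p, q, ⟨T, (l : MM), aa l, (v l : MM), F, hT, hT2 l le_rfl, (hE l _).2 rfl, hF, hs,
      ?_⟩, hp, hq⟩
    exact der_anti (hy (v l)).le hD
  · rintro ⟨p, q, ⟨T, l, α, y, F, hT, hm, hmE, hF, hs, hD⟩, hp, hq⟩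
    obtain ⟨n, rfl⟩ := (mem_omega_iff l).2 ⟨T, α, hT, hm⟩
    have h1 := tow_unique hT n α hm
    have h2 := (hE n y).1 hmE
    subst h1
    subst h2
    exact fact_unique hi (hv n F hF (spl_tr hs hp hq) _ hD)

theorem claim1_proof (hDJ : DerJoin) (hSL : SigmaLemma) (hCode : CodeStmt) : Claim1 := by
  intro B C hC hB hCC
  obtain ⟨φ, hφ⟩ := hDJ.1 C B hC
  have hder := hDJ.2 φ C B hφ
  by_cases hcase : ∀ l : ℕ, ∃ v : ℕ, ∀ F, F ≤ aa l → Tr B F → ∀ t, Der φ (aa l) l v F t →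
      Fact C t
  · choose v hv using hcase
    exact caseI hCode hφ.1 hder v hv
  exfalso
  push Not at hcase
  obtain ⟨l, hl⟩ := hcase
  choose F hF hTr t hD hnF using hl
  -- the facts
  have hKi : ∀ n : ℕ, ∃ K i z : MM, K ≤ aa l ∧ i ≤ aa l ∧ z ≤ aa l ∧ (i = 0 ∨ i = 1) ∧
      Mem z K ∧ z ∉ sgn C i ∧ Der φ (aa l) l n (F n) (2 * K + i) := by
    intro n
    have hD' := hD n
    obtain ⟨K, hK, i, hi, _, _, _, _, _, _, h1, h2, _⟩ := hD n
    have h3 : ¬ decode K ⊆ sgn C i := fun h => hnF n ⟨K, i, h1, h2, h⟩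
    rw [Set.not_subset] at h3
    obtain ⟨z, hz1, hz2⟩ := h3
    refine ⟨K, i, z, hK, hi, (mem_lt hz1).le.trans hK, h2, hz1, hz2, ?_⟩
    rw [← h1]
    exact hD'
  choose K i z hK hi hz hi01 hzK hzC hD2 using hKi
  obtain ⟨EF, hEF⟩ := hCode.2.2 F (aa l) hF
  obtain ⟨EK, hEK⟩ := hCode.2.2 K (aa l) hK
  obtain ⟨Ei, hEi⟩ := hCode.2.2 i (aa l) hi
  obtain ⟨Ez, hEz⟩ := hCode.2.2 z (aa l) hz
  have hR : Int1 (fun n : MM => ∃ F, F ≤ aa l ∧ ∃ K, K ≤ aa l ∧ ∃ i, i ≤ aa l ∧ ∃ z, z ≤ aa l ∧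
      (Mem (pr n F) EF ∧ Mem (pr n K) EK ∧ Mem (pr n i) Ei ∧ Mem (pr n z) Ez ∧
      (i = 0 ∨ i = 1) ∧ Mem z K ∧ Der φ (aa l) l n F (2 * K + i))) := by
    apply Int1.of_delta0
    refine IsDelta0.ex (IsTerm.param _) ?_
    refine IsDelta0.ex (IsTerm.param _) ?_
    refine IsDelta0.ex (IsTerm.param _) ?_
    refine IsDelta0.ex (IsTerm.param _) ?_
    -- 0 = z, 1 = i, 2 = K, 3 = F, 4 = n
    refine (IsDelta0.mem (IsTerm.pr (IsTerm.var 4) (IsTerm.var 3)) (IsTerm.param _)).and ?_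
    refine (IsDelta0.mem (IsTerm.pr (IsTerm.var 4) (IsTerm.var 2)) (IsTerm.param _)).and ?_
    refine (IsDelta0.mem (IsTerm.pr (IsTerm.var 4) (IsTerm.var 1)) (IsTerm.param _)).and ?_
    refine (IsDelta0.mem (IsTerm.pr (IsTerm.var 4) (IsTerm.var 0)) (IsTerm.param _)).and ?_
    refine ((IsDelta0.eq (IsTerm.var 1) (IsTerm.param 0)).or
      (IsDelta0.eq (IsTerm.var 1) (IsTerm.param 1))).and ?_
    refine (IsDelta0.mem (IsTerm.var 0) (IsTerm.var 2)).and ?_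
    exact hφ.1.der (IsTerm.param _) (IsTerm.param _) (IsTerm.var 4) (IsTerm.var 3)
      ((IsTerm.var 2).two_mul.add (IsTerm.var 1))
  obtain ⟨e, he, heR⟩ := hR.overspill (fun n => ⟨F n, hF n, K n, hK n, i n, hi n, z n, hz n,
    (hEF n _).2 rfl, (hEK n _).2 rfl, (hEi n _).2 rfl, (hEz n _).2 rfl, hi01 n, hzK n, hD2 n⟩)
  -- the set for B
  have hPB : Int1 (fun x : MM => ∃ n, n ≤ x ∧ ∃ u, u ≤ x ∧ ∃ F, F ≤ aa l ∧
      (x = pr n u ∧ Mem (pr n F) EF ∧ Mem u F)) := by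
    apply Int1.of_delta0
    refine IsDelta0.ex (IsTerm.var 0) ?_
    refine IsDelta0.ex (IsTerm.var 1) ?_
    refine IsDelta0.ex (IsTerm.param _) ?_
    -- 0 = F, 1 = u, 2 = n, 3 = x
    refine (IsDelta0.eq (IsTerm.var 3) (IsTerm.pr (IsTerm.var 2) (IsTerm.var 1))).and ?_
    refine (IsDelta0.mem (IsTerm.pr (IsTerm.var 2) (IsTerm.var 0)) (IsTerm.param _)).and ?_
    exact IsDelta0.mem (IsTerm.var 1) (IsTerm.var 0)
  obtain ⟨SB, _, hSB⟩ := hPB.code (pr e (aa l) + 1)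
  have kB : ∀ (n : ℕ) (u : MM), Mem (pr (n : MM) u) SB → Mem u (F n) := by
    intro n u h
    obtain ⟨_, n', _, u', _, F', _, h1, h2, h3⟩ := (hSB _).1 h
    obtain ⟨rfl, rfl⟩ := pr_inj.1 h1
    rw [(hEF n F').1 h2] at h3
    exact h3
  obtain ⟨e1, he1, hB1⟩ := hSL B hB SB (fun n w => ⟨fun h => ((hTr n) w).1 (kB n _ h),
    fun h => ((hTr n) w).2 (kB n _ h)⟩)
  -- the set for C
  have hPC : Int1 (fun x : MM => ∃ n, n ≤ x ∧ ∃ u, u ≤ x ∧ ∃ z, z ≤ aa l ∧ ∃ i, i ≤ aa l ∧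
      (x = pr n u ∧ Mem (pr n z) Ez ∧ Mem (pr n i) Ei ∧
        ((i = 0 ∧ u = 2 * z + 1) ∨ (i = 1 ∧ u = 2 * z)))) := by
    apply Int1.of_delta0
    refine IsDelta0.ex (IsTerm.var 0) ?_
    refine IsDelta0.ex (IsTerm.var 1) ?_
    refine IsDelta0.ex (IsTerm.param _) ?_
    refine IsDelta0.ex (IsTerm.param _) ?_
    -- 0 = i, 1 = z, 2 = u, 3 = n, 4 = x
    refine (IsDelta0.eq (IsTerm.var 4) (IsTerm.pr (IsTerm.var 3) (IsTerm.var 2))).and ?_
    refine (IsDelta0.mem (IsTerm.pr (IsTerm.var 3) (IsTerm.var 1)) (IsTerm.param _)).and ?_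
    refine (IsDelta0.mem (IsTerm.pr (IsTerm.var 3) (IsTerm.var 0)) (IsTerm.param _)).and ?_
    refine IsDelta0.or ?_ ?_
    · exact (IsDelta0.eq (IsTerm.var 0) (IsTerm.param 0)).and
        (IsDelta0.eq (IsTerm.var 2) ((IsTerm.var 1).two_mul.add_nat 1))
    · exact (IsDelta0.eq (IsTerm.var 0) (IsTerm.param 1)).and
        (IsDelta0.eq (IsTerm.var 2) (IsTerm.var 1).two_mul)
  obtain ⟨SC, _, hSC⟩ := hPC.code (pr e (2 * aa l + 1) + 1)
  obtain ⟨e2, he2, hC2⟩ := hSL C hCC SC (by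
    intro n w
    constructor
    · intro h
      obtain ⟨_, n', _, u', _, z', _, i', _, h1, h2, h3, h4⟩ := (hSC _).1 h
      obtain ⟨rfl, rfl⟩ := pr_inj.1 h1
      have h5 := (hEz n z').1 h2
      have h6 := (hEi n i').1 h3
      rcases h4 with ⟨h7, h8⟩ | ⟨h7, h8⟩
      · rw [two_mul_add_inj h8, h5]
        have h9 := hzC n
        rw [← h6, h7] at h9
        by_contra hcon
        exact h9 (Or.inr ⟨rfl, hcon⟩)
      · exact absurd h8 (odd_ne_even _ _)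
    · intro h
      obtain ⟨_, n', _, u', _, z', _, i', _, h1, h2, h3, h4⟩ := (hSC _).1 h
      obtain ⟨rfl, rfl⟩ := pr_inj.1 h1
      have h5 := (hEz n z').1 h2
      have h6 := (hEi n i').1 h3
      rcases h4 with ⟨h7, h8⟩ | ⟨h7, h8⟩
      · exact absurd h8.symm (odd_ne_even _ _)
      · rw [two_mul_inj h8, h5]
        have h9 := hzC n
        rw [← h6, h7] at h9
        intro hcon
        exact h9 (Or.inl ⟨rfl, hcon⟩))
  -- an infinite index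
  set y := min e (min e1 e2) with hy
  have hyi : Infl y := by
    intro n
    exact lt_min (he n) (lt_min (he1 n) (he2 n))
  have hye : y ≤ e := min_le_left _ _
  have hye1 : y ≤ e1 := (min_le_right _ _).trans (min_le_left _ _)
  have hye2 : y ≤ e2 := (min_le_right _ _).trans (min_le_right _ _)
  obtain ⟨F', hF', K', hK', i', hi', z', hz', m1, m2, m3, m4, h01, hzK', hD'⟩ := heR y hye
  have hTr' : Tr B F' := by
    have hin : ∀ u, Mem u F' → Mem (pr y u) SB := by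
      intro u hu
      refine (hSB _).2 ⟨?_, y, le_pr_left _ _, u, le_pr_right _ _, F', hF', rfl, m1, hu⟩
      exact (pr_mono hye ((mem_lt hu).le.trans hF')).trans_lt (lt_succ' _)
    intro w
    exact ⟨fun h => ((hB1 y hye1) w).1 (hin _ h), fun h => ((hB1 y hye1) w).2 (hin _ h)⟩
  have hfact : Fact C (2 * K' + i') := (hder _).2 ⟨l, y, F', hyi, hTr', hF', hD'⟩
  have hz2 : z' ∈ sgn C i' := fact_unique h01 hfact hzK'
  have h2z : 2 * z' ≤ 2 * aa l := by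
    rw [two_mul, two_mul]
    have h1 := PAExp.add_le_add' _ _ z' hz'
    have h2 := PAExp.add_le_add' _ _ (aa l) hz'
    rw [add_comm z' (aa l)] at h2
    exact h1.trans h2
  rcases h01 with h0 | h1
  · have hm : Mem (pr y (2 * z' + 1)) SC := by
      refine (hSC _).2 ⟨?_, y, le_pr_left _ _, 2 * z' + 1, le_pr_right _ _, z', hz', i', hi', rfl,
        m4, m3, Or.inl ⟨h0, rfl⟩⟩
      exact (pr_mono hye (PAExp.add_le_add' _ _ 1 h2z)).trans_lt (lt_succ' _)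
    have h3 := ((hC2 y hye2) z').1 hm
    rw [h0] at hz2
    rcases hz2 with ⟨h4, _⟩ | ⟨_, h4⟩
    · exact PAExp.zero_ne_one' h4
    · exact h4 h3
  · have hm : Mem (pr y (2 * z')) SC := by
      refine (hSC _).2 ⟨?_, y, le_pr_left _ _, 2 * z', le_pr_right _ _, z', hz', i', hi', rfl,
        m4, m3, Or.inr ⟨h1, rfl⟩⟩
      exact (pr_mono hye (h2z.trans (lt_succ' _).le)).trans_lt (lt_succ' _)
    have h3 := ((hC2 y hye2) z').2 hm
    rw [h1] at hz2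
    rcases hz2 with ⟨_, h4⟩ | ⟨h4, _⟩
    · exact h3 h4
    · exact PAExp.zero_ne_one' h4.symm

end Pool.Agent.BSig.H13
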