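import Pool.Agent.Helper37_BSig.Stmts

/-!
# BSIG, module OmegaBasics
-/

namespace Pool.Agent.BSig.H13

open Filter Pool.Agent.BSig

theorem mem_pow2_iff (x y : MM) : Mem y (pow2 x) ↔ y = x := by
  obtain ⟨f, hf, rfl⟩ := exists_mk x
  obtain ⟨g, hg, rfl⟩ := exists_mk y
  rw [pow2_mk, mem_mk, mk_eq]
  refine eventually_congr (Eventually.of_forall fun n => ?_)
  rw [Nat.testBit_two_pow, decide_eq_true_iff]
  exact eq_comm

theorem succ_ne_zero' (x : MM) : x + 1 ≠ 0 := by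
  intro h
  have h1 : (0 : MM) < x + 1 := by
    rw [PAExp.discrete]
    exact PAExp.add_le_add' _ _ 1 (PAExp.zero_le' x)
  rw [h] at h1
  exact lt_irrefl _ h1

/-- the elements of a piece of the tower -/
theorem tow_cases {T n z : MM} (hT : TowOK T) (h : Mem (pr n z) T) :
    (n = 0 ∧ z = aa 0) ∨ ∃ j z', n = j + 1 ∧ z = pow2 z' ∧ Mem (pr j z') T := by
  rcases hT _ (mem_lt h).le h with h1 | ⟨j, _, z', _, h1, h2⟩
  · exact Or.inl (pr_inj.1 h1)
  · obtain ⟨h3, h4⟩ := pr_inj.1 h1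
    exact Or.inr ⟨j, z', h3, h4, h2⟩

theorem tow_unique {T : MM} (hT : TowOK T) : ∀ (j : ℕ) (z : MM), Mem (pr (j : MM) z) T →
    z = aa j := by
  intro j
  induction j with
  | zero =>
    intro z h
    rcases tow_cases hT h with ⟨_, h1⟩ | ⟨j, z', h1, _⟩
    · exact h1
    · rw [Nat.cast_zero] at h1
      exact absurd h1.symm (succ_ne_zero' j)
  | succ j ih =>
    intro z h
    rcases tow_cases hT h with ⟨h1, _⟩ | ⟨j', z', h1, h2, h3⟩
    · rw [Nat.cast_succ] at h1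
      exact absurd h1 (succ_ne_zero' _)
    · rw [Nat.cast_succ] at h1
      have h4 := PAExp.add_cancel' _ _ _ h1
      rw [← h4] at h3
      rw [h2, ih z' h3, aa_succ]

theorem tow_large {T : MM} (hT : TowOK T) : ∀ (k : ℕ) (n z : MM), Mem (pr n z) T →
    (k : MM) ≤ n → aa k ≤ z := by
  intro k
  induction k with
  | zero =>
    intro n z h _
    by_contra hcon
    rw [not_le] at hcon
    have hint : Int1 (fun j : MM => ∃ z, z < aa 0 ∧ Mem (pr j z) T) := by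
      apply Int1.of_delta0
      refine IsDelta0.exLt (IsTerm.param _) ?_
      exact IsDelta0.mem (IsTerm.pr (IsTerm.var 1) (IsTerm.var 0)) (IsTerm.param T)
    obtain ⟨m, ⟨z0, hz0, hm⟩, hmin⟩ := hint.least ⟨n, z, hcon, h⟩
    rcases tow_cases hT hm with ⟨_, h1⟩ | ⟨j, z', h1, h2, h3⟩
    · rw [h1] at hz0
      exact lt_irrefl _ hz0
    · have h4 : aa 0 ≤ z' := by
        by_contra hc
        rw [not_le] at hc
        have h5 := hmin j ⟨z', hc, h3⟩
        rw [h1] at h5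
        exact absurd ((PAExp.discrete j (j + 1)).2 le_rfl) (not_lt.2 h5)
      have h5 : z' < z0 := by rw [h2]; exact lt_pow2 z'
      exact absurd (h4.trans_lt h5) (not_lt.2 hz0.le)
  | succ k ih =>
    intro n z h hn
    rcases tow_cases hT h with ⟨h1, _⟩ | ⟨j, z', h1, h2, h3⟩
    · exfalso
      rw [h1, Nat.cast_succ] at hn
      exact succ_ne_zero' _ (le_antisymm hn (PAExp.zero_le' _))
    · rw [h1, Nat.cast_succ] at hn
      have h4 : (k : MM) ≤ j := by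
        by_contra hc
        rw [not_le, PAExp.discrete] at hc
        have h5 := hc.trans (le_refl _)
        have h6 : (k : MM) + 1 ≤ k := hn.trans h5
        exact absurd ((PAExp.discrete (k : MM) (k + 1)).2 le_rfl) (not_lt.2 h6)
      rw [h2, aa_succ]
      exact pow2_le_pow2 (ih j z' h3 h4)

theorem exists_goodT (N : ℕ) : ∃ T, GoodT T N := by
  classical
  obtain ⟨T, hT⟩ := exists_code_finset
    ((Finset.range (N + 1)).image fun j : ℕ => pr (j : MM) (aa j))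
  have hmem : ∀ j ≤ N, Mem (pr (j : MM) (aa j)) T := by
    intro j hj
    rw [hT]
    exact Finset.mem_image.2 ⟨j, Finset.mem_range.2 (by omega), rfl⟩
  refine ⟨T, ?_, hmem⟩
  intro u _ hu
  rw [hT] at hu
  obtain ⟨j, hj, rfl⟩ := Finset.mem_image.1 hu
  rw [Finset.mem_range] at hj
  cases j with
  | zero => left; rw [Nat.cast_zero]
  | succ j =>
    right
    have h1 := hmem j (by omega)
    have h2 := (mem_lt h1).le
    refine ⟨(j : MM), (le_pr_left _ _).trans h2, aa j, (le_pr_right _ _).trans h2, ?_, h1⟩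
    rw [Nat.cast_succ, aa_succ]

theorem mem_omega_iff (n : MM) : n ∈ omega MM ↔ ∃ T z, TowOK T ∧ Mem (pr n z) T := by
  constructor
  · rintro ⟨k, rfl⟩
    obtain ⟨T, hT, hT2⟩ := exists_goodT k
    exact ⟨T, aa k, hT, hT2 k le_rfl⟩
  · rintro ⟨T, z, hT, h⟩
    by_contra hn
    have hi : Infl n := by
      by_contra hc
      obtain ⟨k, hk⟩ := not_infl_iff.1 hc
      exact hn ⟨k, hk.symm⟩
    obtain ⟨k, hk⟩ := exists_lt_aa z
    exact absurd (tow_large hT k n z h (hi k).le) (not_le.2 hk)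

theorem isCut_omega : IsCut (omega MM) := by
  refine ⟨⟨0, 0, Nat.cast_zero⟩, ?_, ?_, ?_⟩
  · intro h
    have h1 : aa 0 ∈ omega MM := by rw [h]; exact Set.mem_univ _
    obtain ⟨k, hk⟩ := h1
    have h2 := infl_aa 0 k
    rw [← hk] at h2
    exact lt_irrefl _ h2
  · rintro x ⟨k, rfl⟩ y hy
    have h1 : y < ((k + 1 : ℕ) : MM) := by
      rw [Nat.cast_succ]
      exact hy.trans_lt ((PAExp.discrete _ _).2 le_rfl)
    obtain ⟨j, _, rfl⟩ := lt_natCast_iff.1 h1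
    exact ⟨j, rfl⟩
  · rintro x ⟨k, rfl⟩
    exact ⟨k + 1, Nat.cast_succ k⟩

theorem sig1_omega : IsSigma 1 (fun v : Fin 1 → MM => v 0 ∈ omega MM) := by
  have h : Sig1 (fun v : Fin 1 → MM => ∃ T, ∃ z, TowOK T ∧ Mem (pr (v 0) z) T) := by
    refine Sig1.ex (Q := fun T v => ∃ z, TowOK T ∧ Mem (pr (v 0) z) T) ?_
    refine Sig1.ex (Q := fun z w => TowOK (w 0) ∧ Mem (pr (Fin.tail w 0) z) (w 0)) ?_
    refine Sig1.of_delta0 ?_
    refine IsDelta0.and (IsDelta0.towOK (IsTerm.var 1)) ?_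
    exact IsDelta0.mem (IsTerm.pr (IsTerm.var 2) (IsTerm.var 0)) (IsTerm.var 1)
  exact (h.congr fun v => mem_omega_iff (v 0)).isSigma

/-- countably many infinite elements have an infinite lower bound -/
theorem exists_infl_lower (m : ℕ → MM) (hm : ∀ k, Infl (m k)) : ∃ ν, Infl ν ∧ ∀ k, ν ≤ m k := by
  obtain ⟨x, _, _, _, _, hx⟩ := saturation (α := ℕ)
    (fun N n x => N ≤ x ∧ ∀ k ≤ N, x ≤ rep (m k) n)
    (fun N n x h => ⟨by omega, fun k hk => h.2 k (by omega)⟩)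
    (fun N => by
      have h1 : ∀ᶠ n in (UU : Filter ℕ), ∀ k ∈ Finset.range (N + 1), N ≤ rep (m k) n := by
        rw [Filter.eventually_all_finset]
        intro k _
        have h2 := (hm k N).le
        rw [natCast_mk, ← mk_rep (m k), mk_le] at h2
        exact h2
      filter_upwards [h1] with n hn
      exact ⟨N, le_rfl, fun k hk => hn k (Finset.mem_range.2 (by omega))⟩)
  have hb : Bdd x := bdd_of_le (bdd_rep (m 0)) ((hx 0).mono fun n h => h.2 0 le_rfl)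
  refine ⟨mk x hb, ?_, ?_⟩
  · intro n
    rw [natCast_mk, mk_lt]
    exact (hx (n + 1)).mono fun i h => by have := h.1; omega
  · intro k
    rw [← mk_rep (m k), mk_le]
    exact (hx k).mono fun i h => h.2 k le_rfl

theorem exists_pred_infl {ν : MM} (h : Infl ν) : ∃ μ, Infl μ ∧ μ < ν := by
  obtain ⟨z, hz⟩ := PAExp.exists_add 1 ν (by
    have := h 1; rw [Nat.cast_one] at this; exact this.le)
  refine ⟨z, ?_, ?_⟩
  · intro n
    by_contra hn
    rw [not_lt] at hn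
    have h2 := h (n + 1)
    rw [← hz, Nat.cast_succ] at h2
    have := PAExp.add_le_add' _ _ 1 hn
    rw [add_comm 1 z] at h2
    exact absurd h2 (not_lt.2 this)
  · rw [← hz, add_comm]
    exact (PAExp.discrete _ _).2 le_rfl

theorem not_red_omega : ¬ Red (omega MM) ∅ := by
  rintro ⟨Φ, hΦ, h⟩
  obtain ⟨Q, hQ, hQ2⟩ := Sig1.of_isSigma hΦ
  -- the approximations
  have hS : ∀ k : ℕ, Int1 (fun x : MM => ∃ p, p ≤ aa k ∧ ∃ q, q ≤ aa k ∧ ∃ a, a ≤ aa k ∧
      (Q ![a, pow2 x, 0, p, q] ∧ ∀ y, y ≤ p → ¬ Mem y p)) := by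
    intro k
    apply Int1.of_delta0
    refine IsDelta0.ex (IsTerm.param _) ?_
    refine IsDelta0.ex (IsTerm.param _) ?_
    refine IsDelta0.ex (IsTerm.param _) ?_
    refine IsDelta0.and ?_ ?_
    · refine (hQ.subst (F := ![fun v => v 0, fun v => pow2 (v 3), fun _ => 0, fun v => v 2,
        fun v => v 1]) ?_).congr fun v => ?_
      · intro i; fin_cases i
        · exact IsTerm.var 0
        · exact (IsTerm.var 3).pow2
        · exact IsTerm.param 0
        · exact IsTerm.var 2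
        · exact IsTerm.var 1
      · have : (![v 0, pow2 (Fin.tail (Fin.tail (Fin.tail v)) 0), 0,
          Fin.tail (Fin.tail v) 0, Fin.tail v 0] : Fin 5 → MM) =
          fun i => (![fun v => v 0, fun v => pow2 (v 3), fun _ => 0, fun v => v 2,
            fun v => v 1] : Fin 5 → (Fin 4 → MM) → MM) i v := by
          funext i; fin_cases i <;> rfl
        rw [this]
    · refine IsDelta0.all (IsTerm.var 2) ?_
      exact (IsDelta0.mem (IsTerm.var 0) (IsTerm.var 3)).not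
  have hout : ∀ (k : ℕ) (x : MM), (∃ p, p ≤ aa k ∧ ∃ q, q ≤ aa k ∧ ∃ a, a ≤ aa k ∧
      (Q ![a, pow2 x, 0, p, q] ∧ ∀ y, y ≤ p → ¬ Mem y p)) → Infl x := by
    rintro k x ⟨p, _, q, _, a, _, hq, hp⟩
    have h1 := (h (pow2 x) 0 (Or.inl rfl)).2 ⟨p, q, (hQ2 _).2 ⟨a, hq⟩, fun y hy =>
      absurd hy (hp y (mem_lt hy).le), fun y _ => Set.notMem_empty y⟩
    have h2 : x ∈ sgn (omega MM) 0 := h1 ((mem_pow2_iff x x).2 rfl)
    rcases h2 with ⟨h3, _⟩ | ⟨_, h3⟩
    · exact absurd h3 PAExp.zero_ne_one'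
    · by_contra hc
      obtain ⟨j, hj⟩ := not_infl_iff.1 hc
      exact h3 ⟨j, hj.symm⟩
  have hin : ∀ x : MM, Infl x → ∃ k : ℕ, (∃ p, p ≤ aa k ∧ ∃ q, q ≤ aa k ∧ ∃ a, a ≤ aa k ∧
      (Q ![a, pow2 x, 0, p, q] ∧ ∀ y, y ≤ p → ¬ Mem y p)) := by
    intro x hx
    have h1 : decode (pow2 x) ⊆ sgn (omega MM) 0 := by
      intro y hy
      have hyx : y = x := (mem_pow2_iff x y).1 hy
      refine Or.inr ⟨rfl, ?_⟩
      rintro ⟨j, hj⟩
      have := hx j
      rw [← hyx, ← hj] at this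
      exact lt_irrefl _ this
    obtain ⟨p, q, hΦpq, hp, _⟩ := (h (pow2 x) 0 (Or.inl rfl)).1 h1
    obtain ⟨a, ha⟩ := (hQ2 _).1 hΦpq
    obtain ⟨k1, hk1⟩ := exists_le_aa p
    obtain ⟨k2, hk2⟩ := exists_le_aa q
    obtain ⟨k3, hk3⟩ := exists_le_aa a
    refine ⟨max k1 (max k2 k3), p, hk1 _ (le_max_left _ _), q,
      hk2 _ ((le_max_left _ _).trans (le_max_right _ _)), a,
      hk3 _ ((le_max_right _ _).trans (le_max_right _ _)), ha, ?_⟩
    intro y _ hy
    exact Set.notMem_empty y (hp hy)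
  -- minima
  have hmin : ∀ k : ℕ, ∃ m, Infl m ∧ ∀ x, (∃ p, p ≤ aa k ∧ ∃ q, q ≤ aa k ∧ ∃ a, a ≤ aa k ∧
      (Q ![a, pow2 x, 0, p, q] ∧ ∀ y, y ≤ p → ¬ Mem y p)) → m ≤ x := by
    intro k
    by_cases hne : ∃ x, (∃ p, p ≤ aa k ∧ ∃ q, q ≤ aa k ∧ ∃ a, a ≤ aa k ∧
      (Q ![a, pow2 x, 0, p, q] ∧ ∀ y, y ≤ p → ¬ Mem y p))
    · obtain ⟨m, hm, hm2⟩ := (hS k).least hne
      exact ⟨m, hout k m hm, hm2⟩
    · exact ⟨aa 0, infl_aa 0, fun x hx => absurd ⟨x, hx⟩ hne⟩
  choose m hm1 hm2 using hmin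
  obtain ⟨ν, hν, hν2⟩ := exists_infl_lower m hm1
  obtain ⟨μ, hμ, hμ2⟩ := exists_pred_infl hν
  obtain ⟨k, hk⟩ := hin μ hμ
  exact absurd (hm2 k μ hk) (not_le.2 (hμ2.trans_le (hν2 k)))

theorem omegaBasics_proof : OmegaBasics :=
  ⟨mem_omega_iff, exists_goodT, fun _ hT j z h => tow_unique hT j z h,
    ⟨isCut_omega, sig1_omega⟩, not_red_omega⟩

end Pool.Agent.BSig.H13
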